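import Pool.Agent.R260.LipB

set_option autoImplicit false

open MeasureTheory

namespace Pool.Agent.Results.MP_6e3e44_an.LipschitzInterpolation

/-- For all real exponents `1 ≤ β < γ < α`, the space `L^γ[0,1]` is a Lipschitz interpolation space
between `L^β[0,1]` and `L^α[0,1]`, with the explicit constant
`C = 2 (γ/(γ-β) + γ/(α-γ))^(1/γ)`. -/
theorem result :
    ∀ β γ α : ℝ, 1 ≤ β → β < γ → γ < α →
      ∃ C : ℝ, 0 < C ∧ C = 2 * (γ / (γ - β) + γ / (α - γ)) ^ (1 / γ) ∧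
        ∀ (U : Lp ℂ (ENNReal.ofReal β) (volume.restrict (Set.Icc (0:ℝ) 1)) →
              Lp ℂ (ENNReal.ofReal β) (volume.restrict (Set.Icc (0:ℝ) 1)))
          (M₀ M₁ : NNReal),
          (∀ x y : Lp ℂ (ENNReal.ofReal β) (volume.restrict (Set.Icc (0:ℝ) 1)),
            eLpNorm (⇑(U x) - ⇑(U y)) (ENNReal.ofReal β) (volume.restrict (Set.Icc (0:ℝ) 1)) ≤
              M₀ * eLpNorm (⇑x - ⇑y) (ENNReal.ofReal β) (volume.restrict (Set.Icc (0:ℝ) 1))) →
          (∀ x : Lp ℂ (ENNReal.ofReal β) (volume.restrict (Set.Icc (0:ℝ) 1)),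
            MemLp x (ENNReal.ofReal α) (volume.restrict (Set.Icc (0:ℝ) 1)) →
            MemLp (U x) (ENNReal.ofReal α) (volume.restrict (Set.Icc (0:ℝ) 1))) →
          (∀ x y : Lp ℂ (ENNReal.ofReal β) (volume.restrict (Set.Icc (0:ℝ) 1)),
            MemLp x (ENNReal.ofReal α) (volume.restrict (Set.Icc (0:ℝ) 1)) →
            MemLp y (ENNReal.ofReal α) (volume.restrict (Set.Icc (0:ℝ) 1)) →
            eLpNorm (⇑(U x) - ⇑(U y)) (ENNReal.ofReal α) (volume.restrict (Set.Icc (0:ℝ) 1)) ≤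
              M₁ * eLpNorm (⇑x - ⇑y) (ENNReal.ofReal α) (volume.restrict (Set.Icc (0:ℝ) 1))) →
          (∀ x : Lp ℂ (ENNReal.ofReal β) (volume.restrict (Set.Icc (0:ℝ) 1)),
            MemLp x (ENNReal.ofReal γ) (volume.restrict (Set.Icc (0:ℝ) 1)) →
            MemLp (U x) (ENNReal.ofReal γ) (volume.restrict (Set.Icc (0:ℝ) 1))) ∧
          (∀ x y : Lp ℂ (ENNReal.ofReal β) (volume.restrict (Set.Icc (0:ℝ) 1)),
            MemLp x (ENNReal.ofReal γ) (volume.restrict (Set.Icc (0:ℝ) 1)) →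
            MemLp y (ENNReal.ofReal γ) (volume.restrict (Set.Icc (0:ℝ) 1)) →
            eLpNorm (⇑(U x) - ⇑(U y)) (ENNReal.ofReal γ) (volume.restrict (Set.Icc (0:ℝ) 1)) ≤
              ENNReal.ofReal (C * (max M₀ M₁ : NNReal)) *
                eLpNorm (⇑x - ⇑y) (ENNReal.ofReal γ) (volume.restrict (Set.Icc (0:ℝ) 1))) := by
  intro b c a hb hbc hca
  refine ⟨Pool.Agent.R260.Lip.Cst b c a, Pool.Agent.R260.Lip.Cst_pos (by linarith) hbc hca, rfl, ?_⟩
  intro U M0 M1 h1 h2 h3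
  have hU : Pool.Agent.R260.Lip.Adm (ENNReal.ofReal b) (ENNReal.ofReal a) U M0 M1 := ⟨h1, h2, h3⟩
  exact ⟨fun x hx => Pool.Agent.R260.Lip.main_mem hb hbc hca U M0 M1 hU x hx,
    fun x y hx hy => Pool.Agent.R260.Lip.main hb hbc hca U M0 M1 hU x y hx hy⟩

end Pool.Agent.Results.MP_6e3e44_an.LipschitzInterpolation
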